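import Pool.Agent.W705.JV.Cor

/-!
# Unit Jones polynomials of random virtual braid words in diagrams on surfaces

Diagrams (starting library `Pool.Agent.H891R2.Jones.Diagram`): `Diagram P` (oriented diagrams with marked
points; the arcs only say which marked points are joined, so these are diagrams of links in thickened
surfaces, that is, virtual link diagrams), `Diagram.fPoly` (the normalised bracket `(-A^{-3})^{w(D)} ⟨D⟩`,
a state sum in which all loops count equally), `Outer m` (the part of an oriented diagram outside a box
through which `m` strands run, with arbitrary directions), `Outer.push` (draws one crossing in the box)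
and `Outer.close` (fills the rest of the box with vertical strands); `ev 3 le_rfl` (`Jones.Final`) is the
evaluation of Laurent polynomials at `A = i √((3 + √5) / 2)`, that is `A = i φ` with the golden ratio `φ`.

`Pool.Agent.W705.JV.Defs`: `VLetter m` (the letters of the virtual braid group on `m` strands: `σ_i`,
`σ_i⁻¹` and the virtual crossings `v_i`, `0 ≤ i < m - 1`), `virt O i` (draws the virtual crossing `v_i` in
the box of `O`: the two strands change their places), `diagramV O w` (the diagram obtained by drawing the
virtual braid word `w : Fin n → VLetter m` in the box of `O`), `permV w` (the permutation of `w`),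
`IsKnotV w` (the permutation of `w` has a single cycle, i.e. the closure of `w` is a virtual knot).

Proof: with three colours (loop value `3 = -A^2 - A^{-2}` for `A = i φ`) the words act linearly on a finite
dimensional space `V` and the diagrams with a given value correspond to the words which map a fixed vector
into a hyperplane depending on the outside and on the value.  The letters act on the set of the subspaces
of `V` which are not stable under the algebra of the diagrams without through strands at some pair of
places without almost invariant vectors in `ℓ²` (ping-pong in `SL_2(ℂ)` for neighbouring letters, moved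
around by the virtual crossings), and an induction on the dimension gives the exponential bound.
-/

set_option autoImplicit false

namespace Pool.Agent.Results.MP_7bc610_gt.RandomVirtualBraids

open Finset LaurentPolynomial Pool.Agent.H891R2.Jones Pool.Agent.W639.RB Pool.Agent.W705.JV

open Classical in
/-- **Unit Jones polynomials of random virtual braid words.**  Let `m ≥ 3`.

* Let `p > 0` be a probability vector on the letters `σ_i`, `σ_i⁻¹`, `v_i` of the virtual braid group on
  `m` strands.  There are `C` and `r < 1` such that for every outside `O` of a box with `m` strands (part
  of a diagram on any surface), every complex number `z` and every `n`, the probability that the diagram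
  with a random word of length `n` in the box has a normalised bracket with the value `z` at `A = i φ` is
  at most `C r^n`.
* There are `C`, `l0` and `r < 1` such that for all outsides `O`, all Laurent polynomials `f` (for instance
  `f = 1`) and all `n`, at most `C r^n (3m-3)^n` of the `(3m-3)^n` words of length `n` give a diagram with
  the normalised bracket `f`; and for `n ≥ l0`, `n ≡ m - 1` modulo 2, also among the words whose closure is
  a virtual knot the proportion of those with normalised bracket `f` is at most `C r^n`. -/
theorem result (m : ℕ) (hm : 3 ≤ m) : 
    (∀ p : VLetter m → ℝ, (∀ x, 0 < p x) → ∑ x, p x = 1 → ∃ C r : ℝ, 0 < r ∧ r < 1 ∧ 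
      ∀ (O : Outer m) (z : ℂ) (n : ℕ), 
        ∑ w : Fin n → VLetter m, 
          (if ev 3 le_rfl (diagramV O w).fPoly = z then ∏ j, p (w j) else 0) ≤ C * r ^ n) ∧
    (∃ (C r : ℝ) (l0 : ℕ), 0 < r ∧ r < 1 ∧ ∀ (O : Outer m) (f : ℤ[T;T⁻¹]) (n : ℕ), 
      ((univ.filter (fun w : Fin n → VLetter m => (diagramV O w).fPoly = f)).card : ℝ) ≤ 
        C * r ^ n * ((3 * (m - 1) : ℕ) : ℝ) ^ n ∧ 
      (l0 ≤ n → n % 2 = (m - 1) % 2 → 
        ((univ.filter (fun w : Fin n → VLetter m => IsKnotV w ∧ (diagramV O w).fPoly = f)).card : ℝ) ≤ 
          C * r ^ n * (univ.filter (fun w : Fin n → VLetter m => IsKnotV w)).card)) := by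
  refine ⟨fun p hp hs => ?_, ?_⟩
  · obtain ⟨C, r, h0, h1, h⟩ := weightsV hm p hp hs
    exact ⟨C, r, h0, h1, fun O z n => h O z n⟩
  · obtain ⟨C, r, hC, h0, h1, h⟩ := countV hm
    obtain ⟨C', l0, h'⟩ := knotsV hm (by linarith) h0 h
    refine ⟨max C C', r, l0, h0, h1, fun O f n => ⟨?_, fun hn hpar => ?_⟩⟩
    · refine (h O f n).trans ?_
      gcongr
      exact le_max_left _ _
    · refine (h' O f n hn hpar).trans ?_
      gcongr
      exact le_max_right _ _

end Pool.Agent.Results.MP_7bc610_gt.RandomVirtualBraids
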